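import Pool.Agent.Run7.h472.OH.Iface3

/-!
# Project OH (helper472), piece MOR: the moment recursion
-/

set_option autoImplicit false
open MeasureTheory ProbabilityTheory Filter Set
open scoped ENNReal Pointwise Topology

namespace Pool.Agent.Run7.h472.OH

open Pool.Agent.N662.FP

namespace MORp

theorem pow_add_le (q m : ℝ≥0∞) (hq : q ≤ 1) (r : ℕ) :
    (m + q) ^ r ≤ q ^ r + r * m * (1 + m) ^ r := by
  induction r with
  | zero => simp
  | succ r ih =>
    have h1 : (m + q) ^ r ≤ (1 + m) ^ r := by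
      refine pow_le_pow_left' ?_ r
      rw [add_comm 1 m]
      gcongr
    calc (m + q) ^ (r + 1) = q * (m + q) ^ r + m * (m + q) ^ r := by ring
      _ ≤ q * (q ^ r + r * m * (1 + m) ^ r) + m * (1 + m) ^ r := by gcongr
      _ = q ^ (r + 1) + q * (r * m * (1 + m) ^ r) + m * (1 + m) ^ r := by ring
      _ ≤ q ^ (r + 1) + 1 * (r * m * (1 + m) ^ r) + m * (1 + m) ^ r := by gcongr
      _ = q ^ (r + 1) + ((r + 1 : ℕ) : ℝ≥0∞) * m * (1 + m) ^ r := by push_cast; ring
      _ ≤ q ^ (r + 1) + ((r + 1 : ℕ) : ℝ≥0∞) * m * (1 + m) ^ (r + 1) := by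
        gcongr
        · exact le_self_add
        · omega

theorem class_bound {Ω : Type} [MeasureSpace Ω] [IsProbabilityMeasure (volume : Measure Ω)]
    {ι : Type} (w : ι → Ω → ℝ) (hw : ∀ b, Measurable (w b)) (b0 : ι) (R : Finset ι)
    (hInd : ∀ f : ℝ → ℝ≥0∞, Measurable f →
      ∫⁻ ω, ∏ b ∈ R, f (w b ω) ∂(volume : Measure Ω) =
        (∫⁻ ω, f (w b0 ω) ∂(volume : Measure Ω)) ^ R.card)
    (g : ℝ) (F : ℝ → ℝ≥0∞) (hF : Measurable F) (hF1 : ∀ u, ¬ g < u → F u = 1) :
    ∫⁻ ω, ({ω | ∃ b ∈ R, g < w b ω} : Set Ω).indicator (fun ω => ∏ b ∈ R, F (w b ω)) ω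
        ∂(volume : Measure Ω) ≤
      R.card * (∫⁻ ω in {ω | g < w b0 ω}, F (w b0 ω) ∂(volume : Measure Ω)) *
        (1 + ∫⁻ ω in {ω | g < w b0 ω}, F (w b0 ω) ∂(volume : Measure Ω)) ^ R.card := by
  classical
  set m' := ∫⁻ ω in {ω | g < w b0 ω}, F (w b0 ω) ∂(volume : Measure Ω) with hm'
  have hB0 : MeasurableSet {ω | g < w b0 ω} := measurableSet_lt measurable_const (hw b0)
  set q := (volume : Measure Ω) {ω | g < w b0 ω}ᶜ with hq
  have hq1 : q ≤ 1 := prob_le_one
  -- the two means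
  have e1 : ∫⁻ ω, F (w b0 ω) ∂(volume : Measure Ω) = m' + q := by
    rw [← lintegral_add_compl _ hB0, ← hm']
    congr 1
    rw [setLIntegral_congr_fun hB0.compl (g := fun _ => 1)
      (fun ω hω => hF1 _ hω)]
    simp [hq]
  let fg : ℝ → ℝ≥0∞ := fun u => if g < u then 0 else 1
  have hfg : Measurable fg := Measurable.ite measurableSet_Ioi measurable_const measurable_const
  have e2 : ∫⁻ ω, fg (w b0 ω) ∂(volume : Measure Ω) = q := by
    have : (fun ω => fg (w b0 ω)) = ({ω | g < w b0 ω}ᶜ : Set Ω).indicator 1 := by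
      funext ω
      by_cases h : g < w b0 ω
      · simp [fg, h]
      · simp only [fg, if_neg h]
        rw [indicator_of_mem (by exact h)]
        rfl
    rw [this, lintegral_indicator_one hB0.compl]
  have hpt : ∀ ω, ({ω | ∃ b ∈ R, g < w b ω} : Set Ω).indicator (fun ω => ∏ b ∈ R, F (w b ω)) ω +
      ∏ b ∈ R, fg (w b ω) = ∏ b ∈ R, F (w b ω) := by
    intro ω
    by_cases h : ∃ b ∈ R, g < w b ω
    · rw [indicator_of_mem (by exact h)]
      obtain ⟨b, hb, hgb⟩ := h
      have h0 : ∏ b ∈ R, fg (w b ω) = 0 := Finset.prod_eq_zero hb (by simp [fg, hgb])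
      rw [h0, add_zero]
    · rw [indicator_of_notMem (by exact h), zero_add]
      push Not at h
      refine Finset.prod_congr rfl fun b hb => ?_
      rw [hF1 _ (not_lt.2 (h b hb))]
      simp [fg, not_lt.2 (h b hb)]
  have hsum : ∫⁻ ω, ({ω | ∃ b ∈ R, g < w b ω} : Set Ω).indicator (fun ω => ∏ b ∈ R, F (w b ω)) ω
        ∂(volume : Measure Ω) + q ^ R.card = (m' + q) ^ R.card := by
    rw [← e1, ← hInd F hF, ← e2, ← hInd fg hfg, ← lintegral_add_right]
    · exact lintegral_congr hpt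
    · exact Finset.measurable_prod _ fun b _ => hfg.comp (hw b)
  have hfin : q ^ R.card ≠ ⊤ := by
    refine ne_top_of_le_ne_top ENNReal.one_ne_top (pow_le_one' hq1 _)
  refine (ENNReal.add_le_add_iff_right hfin).1 ?_
  rw [hsum]
  refine (pow_add_le q m' hq1 _).trans (le_of_eq (add_comm _ _))

theorem one_add_sum_le_prod {ι : Type} (R : Finset ι) (t : ι → ℝ) (ht : ∀ i ∈ R, 0 ≤ t i) :
    1 + ∑ i ∈ R, t i ≤ ∏ i ∈ R, (1 + t i) := by
  classical
  induction R using Finset.induction_on with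
  | empty => simp
  | insert b R hb ih =>
    rw [Finset.sum_insert hb, Finset.prod_insert hb]
    have h1 := ih fun i hi => ht i (Finset.mem_insert_of_mem hi)
    have h2 := ht b (Finset.mem_insert_self _ _)
    have h3 : 0 ≤ ∑ i ∈ R, t i := Finset.sum_nonneg fun i hi => ht i (Finset.mem_insert_of_mem hi)
    nlinarith

/-- the deterministic part: the pointwise bound -/
theorem det_bound {κ ι : Type} [DecidableEq κ] (A : Finset ι) (cl : ι → κ) (T : Finset κ)
    (hcl : ∀ i ∈ A, cl i ∈ T) (φ : ι → ℝ) (hφ : ∀ i ∈ A, 0 ≤ φ i) (Mr S V : ℝ) (a : ℕ)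
    (hS : 0 < S) (hMr : (T.card : ℝ) ≤ Mr) (hT : T.Nonempty) (hV0 : 0 ≤ V)
    (hV : V ≤ S + 2 * ∑ i ∈ A, φ i) :
    (1 + V / S) ^ a ≤ 2 ^ a ∨ ∃ r ∈ T, (∃ i ∈ A.filter (fun i => cl i = r), 0 < φ i) ∧
      (1 + V / S) ^ a ≤ 2 ^ a * ∏ i ∈ A.filter (fun i => cl i = r), (1 + Mr * φ i / S) ^ a := by
  set Φ : κ → ℝ := fun r => ∑ i ∈ A.filter (fun i => cl i = r), φ i with hΦ
  have hsum : ∑ r ∈ T, Φ r = ∑ i ∈ A, φ i := Finset.sum_fiberwise_of_maps_to hcl φ
  obtain ⟨r, hr, hmax⟩ := T.exists_max_image Φ hT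
  have hΦ0 : 0 ≤ Φ r := Finset.sum_nonneg fun i hi => hφ i (Finset.mem_filter.1 hi).1
  have hle : ∑ i ∈ A, φ i ≤ Mr * Φ r := by
    rw [← hsum]
    calc ∑ r ∈ T, Φ r ≤ ∑ _r' ∈ T, Φ r := Finset.sum_le_sum hmax
      _ = T.card * Φ r := by simp
      _ ≤ Mr * Φ r := mul_le_mul_of_nonneg_right hMr hΦ0
  have hMr0 : 0 ≤ Mr := le_trans (Nat.cast_nonneg _) hMr
  rcases hΦ0.eq_or_lt with h0 | h0
  · left
    rw [← h0, mul_zero] at hle
    have h1 : V / S ≤ 1 := by
      rw [div_le_one hS]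
      linarith
    have h2 : 0 ≤ V / S := by positivity
    exact pow_le_pow_left₀ (by linarith) (by linarith) a
  · right
    refine ⟨r, hr, ?_, ?_⟩
    · by_contra hcon
      push Not at hcon
      have : Φ r ≤ 0 := Finset.sum_nonpos hcon
      linarith
    · rw [Finset.prod_pow, ← mul_pow]
      refine pow_le_pow_left₀ (by positivity) ?_ a
      have h1 : 1 + ∑ i ∈ A.filter (fun i => cl i = r), Mr * φ i / S ≤
          ∏ i ∈ A.filter (fun i => cl i = r), (1 + Mr * φ i / S) :=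
        one_add_sum_le_prod _ _ fun i hi =>
          div_nonneg (mul_nonneg hMr0 (hφ i (Finset.mem_filter.1 hi).1)) hS.le
      have h2 : ∑ i ∈ A.filter (fun i => cl i = r), Mr * φ i / S = Mr * Φ r / S := by
        rw [hΦ, ← Finset.sum_div, ← Finset.mul_sum]
      have h3 : V / S ≤ 1 + 2 * (Mr * Φ r / S) := by
        rw [div_le_iff₀ hS]
        have : (1 + 2 * (Mr * Φ r / S)) * S = S + 2 * (Mr * Φ r) := by field_simp
        rw [this]
        linarith
      rw [h2] at h1
      linarith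

theorem two_pow_bound (t : ℝ) (ht : 0 ≤ t) (a : ℕ) : (1 + t) ^ a ≤ 2 ^ a + (2 * t) ^ a := by
  rcases le_total t 1 with h | h
  · have h1 : (1 + t) ^ a ≤ 2 ^ a := pow_le_pow_left₀ (by linarith) (by linarith) a
    have h2 : 0 ≤ (2 * t) ^ a := by positivity
    linarith
  · have h1 : (1 + t) ^ a ≤ (2 * t) ^ a := pow_le_pow_left₀ (by linarith) (by linarith) a
    have h2 : (0 : ℝ) ≤ 2 ^ a := by positivity
    linarith

/-- the residue class of a block -/
def cls (M : ℕ) (b : ℤ × ℤ) : ℤ × ℤ := (b.1 % (M : ℤ), b.2 % (M : ℤ))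

/-- all residue classes -/
noncomputable def classes (M : ℕ) : Finset (ℤ × ℤ) :=
  (Finset.Ico (0 : ℤ) M) ×ˢ (Finset.Ico (0 : ℤ) M)

theorem cls_mem {M : ℕ} (hM : 0 < M) (b : ℤ × ℤ) : cls M b ∈ classes M := by
  have hM' : (0 : ℤ) < M := by exact_mod_cast hM
  simp only [classes, cls, Finset.mem_product, Finset.mem_Ico]
  exact ⟨⟨Int.emod_nonneg _ hM'.ne', Int.emod_lt_of_pos _ hM'⟩,
    ⟨Int.emod_nonneg _ hM'.ne', Int.emod_lt_of_pos _ hM'⟩⟩

theorem card_classes (M : ℕ) : (classes M).card = M ^ 2 := by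
  simp [classes, sq]

theorem dist_cls {M : ℕ} {b b' : ℤ × ℤ} (h : cls M b = cls M b') (hne : b ≠ b') :
    M ≤ nm (b - b') := by
  simp only [cls, Prod.mk.injEq] at h
  obtain ⟨h1, h2⟩ := h
  have d1 : (M : ℤ) ∣ b'.1 - b.1 := Int.ModEq.dvd h1
  have d2 : (M : ℤ) ∣ b'.2 - b.2 := Int.ModEq.dvd h2
  have key : ∀ x y : ℤ, (M : ℤ) ∣ y - x → x ≠ y → M ≤ (x - y).natAbs := by
    intro x y hd hxy
    have h3 : M ∣ (y - x).natAbs := by
      have := Int.natAbs_dvd_natAbs.2 hd
      simpa using this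
    have h4 : 0 < (y - x).natAbs := Int.natAbs_pos.2 (sub_ne_zero.2 (Ne.symm hxy))
    have h5 := Nat.le_of_dvd h4 h3
    rwa [← Int.natAbs_neg, neg_sub] at h5
  unfold nm
  by_cases hx : b.1 = b'.1
  · have hy : b.2 ≠ b'.2 := fun hy => hne (Prod.ext hx hy)
    exact (key _ _ d2 hy).trans (le_max_right _ _)
  · exact (key _ _ d1 hx).trans (le_max_left _ _)

theorem card_bx (ρ : ℕ) : ((bx ρ).card : ℝ) = (2 * (ρ : ℝ) + 1) ^ 2 := by
  have : (bx ρ).card = (2 * ρ + 1) ^ 2 := by
    unfold bx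
    rw [Finset.card_product, Int.card_Icc]
    have : ((ρ : ℤ) + 1 - -(ρ : ℤ)).toNat = 2 * ρ + 1 := by omega
    rw [this, sq]
  rw [this]
  push_cast
  ring

theorem exp_bound (θ A : ℝ) (hθ : 0 ≤ θ) (h : A * θ ≤ 1) (r : ℕ) (hr : (r : ℝ) ≤ A) :
    (1 + θ) ^ r ≤ 3 := by
  have h1 : 1 + θ ≤ Real.exp θ := by linarith [Real.add_one_le_exp θ]
  calc (1 + θ) ^ r ≤ (Real.exp θ) ^ r := pow_le_pow_left₀ (by linarith) h1 r
    _ = Real.exp (r * θ) := by rw [← Real.exp_nat_mul]
    _ ≤ Real.exp 1 := Real.exp_le_exp.2 ((mul_le_mul_of_nonneg_right hr hθ).trans h)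
    _ ≤ 3 := by linarith [Real.exp_one_lt_d9]

end MORp

open MORp

theorem t_MOR (hWBD : S_WBD) (hMEAS : S_MEAS) (hIND : S_IND) (hREG : S_REG) : S_MOR := by
  classical
  intro Ω _ _ X hX μ c C L hc a n N hn hN g gN s S ρ hg hgc hs hS hρ hK hθ
  set Mr : ℝ := (2 * (L : ℝ) + 1) ^ 2 with hMr
  set Ar : ℝ := (2 * (ρ : ℝ) + 1) ^ 2 with hAr
  set θ : ℝ := 2 ^ a * G X μ L n g + (2 * Mr * s / S) ^ a * Mo X μ L a n g s with hθd
  have henv : Measurable (env X) := measurable_pi_iff.2 fun e => hX.meas e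
  let w : ℤ × ℤ → Ω → ℝ := fun b ω => W μ L n b (env X ω)
  have hw : ∀ b, Measurable (w b) := fun b => (hMEAS μ c C L hc n hn b).comp henv
  have hw0 : ∀ b ω, 0 ≤ w b ω := fun b ω => (hWBD μ c C L hc n hn b (env X ω)).2.1
  have hwC : ∀ b ω, w b ω ≤ C * (L + 1) * n := fun b ω => (hWBD μ c C L hc n hn b (env X ω)).2.2.1
  let V : Ω → ℝ := fun ω => W μ L N 0 (env X ω)
  have hV0 : ∀ ω, 0 ≤ V ω := fun ω => (hWBD μ c C L hc N hN 0 (env X ω)).2.1
  have hVm : Measurable V := (hMEAS μ c C L hc N hN 0).comp henv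
  let F : ℝ → ℝ≥0∞ := fun u => ENNReal.ofReal ((1 + Mr * (if g < u then u else 0) / S) ^ a)
  have hF : Measurable F := by
    have h1 : Measurable fun u : ℝ => if g < u then u else 0 :=
      Measurable.ite measurableSet_Ioi measurable_id measurable_const
    exact ENNReal.measurable_ofReal.comp
      ((measurable_const.add ((h1.const_mul Mr).div_const S)).pow_const a)
  have hF1 : ∀ u, ¬ g < u → F u = 1 := fun u hu => by simp [F, hu]
  have hMr0 : 0 ≤ Mr := by positivity
  have hB0 : MeasurableSet {ω | g < w 0 ω} := measurableSet_lt measurable_const (hw 0)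
  set m' := ∫⁻ ω in {ω | g < w 0 ω}, F (w 0 ω) ∂(volume : Measure Ω) with hm'
  set E0 := ∫⁻ ω in {ω | g < w 0 ω}, ENNReal.ofReal ((1 + w 0 ω / s) ^ a)
    ∂(volume : Measure Ω) with hE0
  have hE0top : E0 ≠ ⊤ := by
    have h1 : E0 ≤ ∫⁻ _ω in {ω | g < w 0 ω},
        ENNReal.ofReal ((1 + C * (L + 1) * n / s) ^ a) ∂(volume : Measure Ω) := by
      refine lintegral_mono fun ω => ENNReal.ofReal_le_ofReal ?_
      refine pow_le_pow_left₀ (add_nonneg zero_le_one (div_nonneg (hw0 0 ω) hs.le)) ?_ a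
      have := div_le_div_of_nonneg_right (hwC 0 ω) hs.le
      linarith
    refine ne_top_of_le_ne_top ?_ h1
    rw [setLIntegral_const]
    exact ENNReal.mul_ne_top ENNReal.ofReal_ne_top (measure_ne_top _ _)
  have hMo : Mo X μ L a n g s = E0.toReal := rfl
  have hMo0 : 0 ≤ Mo X μ L a n g s := by rw [hMo]; exact ENNReal.toReal_nonneg
  have hE0' : E0 = ENNReal.ofReal (Mo X μ L a n g s) := by
    rw [hMo, ENNReal.ofReal_toReal hE0top]
  have hG : (volume : Measure Ω) {ω | g < w 0 ω} = ENNReal.ofReal (G X μ L n g) := by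
    rw [show G X μ L n g = (volume : Measure Ω).real {ω | g < w 0 ω} from rfl, ofReal_measureReal]
  have hG0 : 0 ≤ G X μ L n g := measureReal_nonneg
  have hθ0 : 0 ≤ θ := by rw [hθd]; positivity
  have hm'θ : m' ≤ ENNReal.ofReal θ := by
    calc m' ≤ ∫⁻ ω in {ω | g < w 0 ω}, (ENNReal.ofReal (2 ^ a) +
          ENNReal.ofReal ((2 * Mr * s / S) ^ a) * ENNReal.ofReal ((1 + w 0 ω / s) ^ a))
            ∂(volume : Measure Ω) := by
          refine setLIntegral_mono' hB0 fun ω hω => ?_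
          have hω' : g < w 0 ω := hω
          simp only [F, if_pos hω']
          rw [← ENNReal.ofReal_mul (by positivity), ← ENNReal.ofReal_add (by positivity)
            (by have := hw0 0 ω; positivity)]
          refine ENNReal.ofReal_le_ofReal ?_
          have h0 := hw0 0 ω
          refine (two_pow_bound _ (by positivity) a).trans ?_
          gcongr
          rw [← mul_pow]
          refine pow_le_pow_left₀ (by positivity) ?_ a
          have e : 2 * Mr * s / S * (1 + w 0 ω / s) =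
              2 * Mr * s / S + 2 * (Mr * w 0 ω / S) := by
            field_simp
          rw [e]
          have : 0 ≤ 2 * Mr * s / S := by positivity
          linarith
      _ = ENNReal.ofReal (2 ^ a) * ENNReal.ofReal (G X μ L n g) +
          ENNReal.ofReal ((2 * Mr * s / S) ^ a) * ENNReal.ofReal (Mo X μ L a n g s) := by
          rw [lintegral_add_left measurable_const, setLIntegral_const, hG, lintegral_const_mul'
            _ _ ENNReal.ofReal_ne_top, ← hE0, hE0']
      _ = ENNReal.ofReal θ := by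
          rw [← ENNReal.ofReal_mul (by positivity), ← ENNReal.ofReal_mul (by positivity),
            ← ENNReal.ofReal_add (by positivity) (by positivity)]
  -- the classes
  let R : ℤ × ℤ → Finset (ℤ × ℤ) := fun r => (bx ρ).filter (fun b => cls (2 * L + 1) b = r)
  let H : ℤ × ℤ → Ω → ℝ≥0∞ := fun r =>
    ({ω | ∃ b ∈ R r, g < w b ω} : Set Ω).indicator (fun ω => ∏ b ∈ R r, F (w b ω))
  have hHm : ∀ r, Measurable (H r) := by
    intro r
    refine Measurable.indicator (Finset.measurable_prod _ fun b _ => hF.comp (hw b)) ?_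
    have : {ω | ∃ b ∈ R r, g < w b ω} = ⋃ b ∈ R r, {ω | g < w b ω} := by
      ext ω
      simp
    rw [this]
    exact Finset.measurableSet_biUnion _ fun b _ => measurableSet_lt measurable_const (hw b)
  have hH : ∀ r, ∫⁻ ω, H r ω ∂(volume : Measure Ω) ≤ ENNReal.ofReal (3 * (Ar * θ)) := by
    intro r
    have h1 := class_bound w hw 0 (R r) (fun f hf => hIND Ω X hX μ c C L hc n hn f hf (R r)
      (fun b hb b' hb' hne => dist_cls
        (((Finset.mem_filter.1 hb).2).trans ((Finset.mem_filter.1 hb').2).symm) hne)) g F hF hF1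
    have hcard : ((R r).card : ℝ) ≤ Ar := by
      rw [hAr, ← card_bx]
      exact_mod_cast Finset.card_filter_le _ _
    refine h1.trans ?_
    rw [← hm']
    calc ((R r).card : ℝ≥0∞) * m' * (1 + m') ^ (R r).card ≤
        ENNReal.ofReal Ar * ENNReal.ofReal θ * ENNReal.ofReal 3 := by
          have e1 : ((R r).card : ℝ≥0∞) ≤ ENNReal.ofReal Ar := by
            rw [← ENNReal.ofReal_natCast]
            exact ENNReal.ofReal_le_ofReal hcard
          have e2 : (1 + m') ^ (R r).card ≤ ENNReal.ofReal 3 := by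
            calc (1 + m') ^ (R r).card ≤ (1 + ENNReal.ofReal θ) ^ (R r).card := by gcongr
              _ = ENNReal.ofReal ((1 + θ) ^ (R r).card) := by
                rw [ENNReal.ofReal_pow (by positivity), ENNReal.ofReal_add zero_le_one hθ0,
                  ENNReal.ofReal_one]
              _ ≤ ENNReal.ofReal 3 := ENNReal.ofReal_le_ofReal (exp_bound θ Ar hθ0 hθ _ hcard)
          gcongr
      _ = ENNReal.ofReal (3 * (Ar * θ)) := by
          rw [← ENNReal.ofReal_mul (by positivity), ← ENNReal.ofReal_mul (by positivity)]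
          congr 1
          ring
  have hMpos : 0 < 2 * L + 1 := by omega
  have hcardT : ((classes (2 * L + 1)).card : ℝ) = Mr := by
    rw [card_classes]
    push_cast
    rfl
  -- the pointwise bound
  have hpt : ∀ ω, ENNReal.ofReal ((1 + V ω / S) ^ a) ≤ ENNReal.ofReal (2 ^ a) +
      ENNReal.ofReal (2 ^ a) * ∑ r ∈ classes (2 * L + 1), H r ω := by
    intro ω
    let φ : ℤ × ℤ → ℝ := fun b => if g < w b ω then w b ω else 0
    have hφ0 : ∀ b, 0 ≤ φ b := fun b => by
      by_cases h : g < w b ω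
      · simp only [φ, if_pos h]; exact hw0 b ω
      · simp [φ, h]
    have hbs : bsum μ L n g (env X ω) (bx ρ) = ∑ b ∈ bx ρ, φ b := by
      unfold bsum
      rw [Finset.sum_filter]
    have hreg : V ω ≤ S + 2 * ∑ b ∈ bx ρ, φ b := by
      have := hREG μ c C L hc n N hn hN g hg hgc (env X ω) ρ hρ
      rw [hbs] at this
      exact this.trans (by linarith)
    rcases det_bound (bx ρ) (cls (2 * L + 1)) (classes (2 * L + 1)) (fun b _ => cls_mem hMpos b)
      φ (fun b _ => hφ0 b) Mr S (V ω) a hS hcardT.le ⟨_, cls_mem hMpos 0⟩ (hV0 ω) hreg with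
      h | ⟨r, hr, ⟨b, hb, hbpos⟩, hle⟩
    · exact (ENNReal.ofReal_le_ofReal h).trans le_self_add
    · have hb' : g < w b ω := by
        by_contra hcon
        simp [φ, hcon] at hbpos
      have hHr : H r ω = ∏ b ∈ R r, F (w b ω) := indicator_of_mem (by exact ⟨b, hb, hb'⟩) _
      have hprod : ∏ b ∈ R r, F (w b ω) = ENNReal.ofReal (∏ b ∈ R r, (1 + Mr * φ b / S) ^ a) := by
        rw [ENNReal.ofReal_prod_of_nonneg]
        intro b _
        have := hφ0 b
        positivity
      calc ENNReal.ofReal ((1 + V ω / S) ^ a) ≤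
          ENNReal.ofReal (2 ^ a * ∏ b ∈ R r, (1 + Mr * φ b / S) ^ a) :=
            ENNReal.ofReal_le_ofReal hle
        _ = ENNReal.ofReal (2 ^ a) * H r ω := by
            rw [ENNReal.ofReal_mul (by positivity), hHr, hprod]
        _ ≤ ENNReal.ofReal (2 ^ a) * ∑ r ∈ classes (2 * L + 1), H r ω := by
            gcongr
            exact Finset.single_le_sum (f := fun r => H r ω) (fun _ _ => zero_le) hr
        _ ≤ _ := le_add_self
  have hGN : (volume : Measure Ω) {ω | gN < V ω} = ENNReal.ofReal (G X μ L N gN) := by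
    rw [show G X μ L N gN = (volume : Measure Ω).real {ω | gN < V ω} from rfl, ofReal_measureReal]
  have hGN0 : 0 ≤ G X μ L N gN := measureReal_nonneg
  have hfin : ∫⁻ ω in {ω | gN < V ω}, ENNReal.ofReal ((1 + V ω / S) ^ a) ∂(volume : Measure Ω) ≤
      ENNReal.ofReal (2 ^ a * G X μ L N gN + 3 * 2 ^ a * Mr * (Ar * θ)) := by
    calc ∫⁻ ω in {ω | gN < V ω}, ENNReal.ofReal ((1 + V ω / S) ^ a) ∂(volume : Measure Ω) ≤
        ∫⁻ ω in {ω | gN < V ω}, (ENNReal.ofReal (2 ^ a) +
          ENNReal.ofReal (2 ^ a) * ∑ r ∈ classes (2 * L + 1), H r ω) ∂(volume : Measure Ω) :=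
          lintegral_mono fun ω => hpt ω
      _ = ENNReal.ofReal (2 ^ a) * ENNReal.ofReal (G X μ L N gN) +
          ∫⁻ ω in {ω | gN < V ω}, ENNReal.ofReal (2 ^ a) * ∑ r ∈ classes (2 * L + 1), H r ω
            ∂(volume : Measure Ω) := by
          rw [lintegral_add_left measurable_const, setLIntegral_const, hGN]
      _ ≤ ENNReal.ofReal (2 ^ a) * ENNReal.ofReal (G X μ L N gN) +
          ∫⁻ ω, ENNReal.ofReal (2 ^ a) * ∑ r ∈ classes (2 * L + 1), H r ω
            ∂(volume : Measure Ω) := by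
          gcongr
          exact Measure.restrict_le_self
      _ = ENNReal.ofReal (2 ^ a) * ENNReal.ofReal (G X μ L N gN) +
          ENNReal.ofReal (2 ^ a) * ∑ r ∈ classes (2 * L + 1),
            ∫⁻ ω, H r ω ∂(volume : Measure Ω) := by
          rw [lintegral_const_mul' _ _ ENNReal.ofReal_ne_top,
            lintegral_finsetSum _ fun r _ => hHm r]
      _ ≤ ENNReal.ofReal (2 ^ a) * ENNReal.ofReal (G X μ L N gN) +
          ENNReal.ofReal (2 ^ a) * ∑ _r ∈ classes (2 * L + 1), ENNReal.ofReal (3 * (Ar * θ)) := by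
          gcongr with r _
          exact hH r
      _ = ENNReal.ofReal (2 ^ a * G X μ L N gN + 3 * 2 ^ a * Mr * (Ar * θ)) := by
          rw [Finset.sum_const, nsmul_eq_mul, ← ENNReal.ofReal_natCast, hcardT,
            ← ENNReal.ofReal_mul hMr0, ← ENNReal.ofReal_mul (by positivity),
            ← ENNReal.ofReal_mul (by positivity),
            ← ENNReal.ofReal_add (by positivity) (by positivity)]
          congr 1
          ring
  exact ENNReal.toReal_le_of_le_ofReal (by positivity) hfin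

end Pool.Agent.Run7.h472.OH
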